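import Pool.Agent.H28.MCL.Targets

/-!
# MCL, row VDC: the inequality of van der Corput in a progression
-/

set_option autoImplicit false

open Finset Filter

namespace Pool.Agent.H61.MCL

open Pool.Agent.H28.MCL

/-- all shifts of the elements of `iv N H W c` by `i W`, `i < D` -/
def XX (N H W c D : ℕ) : Finset ℕ :=
  (Ioc (N - H) (N + (D - 1) * W)).filter (fun n => n ≡ c [MOD W])

lemma card_XX (N H W c D : ℕ) (hW : 0 < W) (hD : 0 < D) (hHN : H ≤ N) :
    ((XX N H W c D).card : ℝ) ≤ (H : ℝ) / W + D := by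
  have hWR : (0 : ℝ) < W := by exact_mod_cast hW
  have h := Nat.Ioc_filter_modEq_card (a := N - H) (b := N + (D - 1) * W) hW c
  have h2 : (((XX N H W c D).card : ℤ) : ℝ) ≤ (H : ℝ) / W + D := by
    unfold XX
    rw [h]
    have e1 : (((N - H : ℕ) : ℚ) - c) / W ≤ ((N + (D - 1) * W : ℕ) - c) / W := by
      have : (0 : ℚ) < W := by exact_mod_cast hW
      gcongr
      omega
    have e2 : ⌊(((N - H : ℕ) : ℚ) - c) / W⌋ ≤ ⌊(((N + (D - 1) * W : ℕ) : ℚ) - c) / W⌋ :=
      Int.floor_le_floor e1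
    rw [max_eq_left (by linarith)]
    have e3 : ((⌊(((N + (D - 1) * W : ℕ) : ℚ) - c) / W⌋ : ℤ) : ℚ) ≤
        (((N + (D - 1) * W : ℕ) : ℚ) - c) / W := Int.floor_le _
    have e4 : (((N - H : ℕ) : ℚ) - c) / W - 1 < ((⌊(((N - H : ℕ) : ℚ) - c) / W⌋ : ℤ) : ℚ) :=
      Int.sub_one_lt_floor _
    generalize ⌊(((N + (D - 1) * W : ℕ) : ℚ) - c) / W⌋ = P at e3 ⊢
    generalize ⌊(((N - H : ℕ) : ℚ) - c) / W⌋ = Q at e4 ⊢
    have e5 : ((P - Q : ℤ) : ℚ) ≤ (H : ℚ) / W + D := by
      push_cast [Nat.cast_sub hHN, Nat.cast_sub (Nat.one_le_iff_ne_zero.2 hD.ne')] at e3 e4 ⊢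
      have hWQ : (0 : ℚ) < W := by exact_mod_cast hW
      have e6 : ((N : ℚ) + (D - 1) * W - c) / W = ((N : ℚ) - H - c) / W + H / W + (D - 1) := by
        field_simp
        ring
      rw [e6] at e3
      linarith
    have e7 : (((P - Q : ℤ) : ℚ) : ℝ) ≤ (((H : ℚ) / W + D : ℚ) : ℝ) := by
      exact_mod_cast e5
    push_cast at e7 ⊢
    linarith
  exact_mod_cast h2

lemma mem_iv {N H W c n : ℕ} : n ∈ iv N H W c ↔ N - H < n ∧ n ≤ N ∧ n ≡ c [MOD W] := by
  unfold iv
  rw [mem_filter, mem_Ioc, and_assoc]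

/-- shift -/
lemma sum_shift {N H W c D i : ℕ} (hi : i < D) (F : ℕ → ℝ)
    (hF : ∀ n, n ∉ iv N H W c → F n = 0) :
    ∑ x ∈ XX N H W c D, F (x - i * W) = ∑ n ∈ iv N H W c, F n := by
  have h1 : ∑ x ∈ (iv N H W c).image (fun n => n + i * W), F (x - i * W) =
      ∑ n ∈ iv N H W c, F n := by
    rw [sum_image]
    · exact sum_congr rfl fun n _ => by rw [Nat.add_sub_cancel]
    · intro a _ b _ hab
      exact Nat.add_right_cancel hab
  rw [← h1]
  symm
  apply sum_subset
  · intro x hx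
    rw [mem_image] at hx
    obtain ⟨n, hn, rfl⟩ := hx
    rw [mem_iv] at hn
    unfold XX
    rw [mem_filter, mem_Ioc]
    refine ⟨⟨by omega, ?_⟩, ?_⟩
    · have : i * W ≤ (D - 1) * W := Nat.mul_le_mul_right _ (by omega)
      omega
    · have h : n + i * W ≡ n [MOD W] := by
        unfold Nat.ModEq
        simp
      exact h.trans hn.2.2
  · intro x _ hx2
    apply hF
    intro hn
    apply hx2
    rw [mem_image]
    refine ⟨x - i * W, hn, ?_⟩
    have := (mem_iv.1 hn).1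
    omega

/-- the double sum over differences -/
lemma sum_diff (c : ℕ → ℝ) (D : ℕ) :
    ∑ i ∈ range D, ∑ j ∈ range D, c (if i ≤ j then j - i else i - j) =
      D * c 0 + 2 * ∑ k ∈ Ico 1 D, ((D : ℝ) - k) * c k := by
  induction D with
  | zero => simp
  | succ D ih =>
    have h0 : ∑ k ∈ Ico 1 (D + 1), c k = ∑ i ∈ range D, c (D - i) := by
      rw [Finset.sum_Ico_eq_sum_range]
      have : D + 1 - 1 = D := by omega
      rw [this, ← Finset.sum_range_reflect]
      refine sum_congr rfl fun i hi => ?_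
      rw [mem_range] at hi
      congr 1
      omega
    have h1 : ∑ i ∈ range (D + 1), ∑ j ∈ range (D + 1), c (if i ≤ j then j - i else i - j) =
        (∑ i ∈ range D, ∑ j ∈ range D, c (if i ≤ j then j - i else i - j)) +
        2 * ∑ i ∈ range D, c (D - i) + c 0 := by
      rw [sum_range_succ]
      have e1 : ∑ i ∈ range D, ∑ j ∈ range (D + 1), c (if i ≤ j then j - i else i - j) =
          (∑ i ∈ range D, ∑ j ∈ range D, c (if i ≤ j then j - i else i - j)) +
            ∑ i ∈ range D, c (D - i) := by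
        rw [← sum_add_distrib]
        refine sum_congr rfl fun i hi => ?_
        rw [sum_range_succ, if_pos (mem_range.1 hi).le]
      have e2 : ∑ j ∈ range (D + 1), c (if D ≤ j then j - D else D - j) =
          (∑ i ∈ range D, c (D - i)) + c 0 := by
        rw [sum_range_succ, if_pos le_rfl, Nat.sub_self]
        congr 1
        refine sum_congr rfl fun i hi => ?_
        rw [if_neg (not_le.2 (mem_range.1 hi))]
      rw [e1, e2]
      ring
    have h2 : ∑ k ∈ Ico 1 (D + 1), (((D + 1 : ℕ) : ℝ) - k) * c k =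
        (∑ k ∈ Ico 1 D, ((D : ℝ) - k) * c k) + ∑ k ∈ Ico 1 (D + 1), c k := by
      rcases Nat.eq_zero_or_pos D with rfl | hD
      · simp
      have e : ∑ k ∈ Ico 1 (D + 1), ((D : ℝ) - k) * c k = ∑ k ∈ Ico 1 D, ((D : ℝ) - k) * c k := by
        rw [Finset.sum_Ico_succ_top hD]
        simp
      rw [← e, ← sum_add_distrib]
      refine sum_congr rfl fun k _ => ?_
      push_cast
      ring
    rw [h1, ih, h2, h0]
    push_cast
    ring

theorem vdc : T_VDC := by
  classical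
  intro u W D N H c hW hD hHN
  set S := iv N H W c with hS
  have hDR : (0 : ℝ) < D := by exact_mod_cast hD
  have hWR : (0 : ℝ) < W := by exact_mod_cast hW
  obtain ⟨V, hV⟩ : ∃ V : ℕ → ℝ, ∀ n, V n = if n ∈ S then u n else 0 := ⟨_, fun _ => rfl⟩
  have hV1 : ∀ n, n ∉ S → V n = 0 := fun n hn => by rw [hV, if_neg hn]
  have hV2 : ∀ n, n ∈ S → V n = u n := fun n hn => by rw [hV, if_pos hn]
  have hV0 : V 0 = 0 := hV1 0 (fun h => by
    have := (mem_iv.1 h).1
    omega)
  obtain ⟨C, hC⟩ : ∃ C : ℕ → ℝ, ∀ k, C k = ∑ n ∈ S, V n * V (n + k * W) := ⟨_, fun _ => rfl⟩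
  have hC0 : C 0 = ∑ n ∈ S, u n ^ 2 := by
    rw [hC]
    refine sum_congr rfl fun n hn => ?_
    rw [Nat.zero_mul, Nat.add_zero, hV2 n hn, sq]
  have hCk : ∀ k, C k = ∑ n ∈ S.filter (fun n => n + k * W ≤ N), u n * u (n + k * W) := by
    intro k
    rw [hC, sum_filter]
    refine sum_congr rfl fun n hn => ?_
    have hn' := mem_iv.1 hn
    split_ifs with h
    · rw [hV2 n hn, hV2]
      rw [hS, mem_iv]
      refine ⟨by omega, h, ?_⟩
      have h3 : n + k * W ≡ n [MOD W] := by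
        unfold Nat.ModEq
        simp
      exact h3.trans hn'.2.2
    · rw [hV1 (n + k * W), mul_zero]
      intro h4
      exact h (mem_iv.1 h4).2.1
  -- the pairs
  have hpair : ∀ i j, i ≤ j → j < D →
      ∑ x ∈ XX N H W c D, V (x - i * W) * V (x - j * W) = C (j - i) := by
    intro i j hij hj
    rw [hC, ← sum_shift (D := D) hj (fun n => V n * V (n + (j - i) * W))
      (fun n hn => by rw [hV1 n hn, zero_mul])]
    refine sum_congr rfl fun x _ => ?_
    by_cases hx : j * W ≤ x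
    · have e : x - j * W + (j - i) * W = x - i * W := by
        have h5 : j * W = (j - i) * W + i * W := by
          rw [← Nat.add_mul, Nat.sub_add_cancel hij]
        omega
      rw [e, mul_comm]
    · have e : x - j * W = 0 := by omega
      rw [e, hV0, mul_zero, zero_mul]
  have hU1 : ∑ x ∈ XX N H W c D, ∑ i ∈ range D, V (x - i * W) = D * ∑ n ∈ S, u n := by
    rw [sum_comm]
    have : ∀ i ∈ range D, ∑ x ∈ XX N H W c D, V (x - i * W) = ∑ n ∈ S, u n := by
      intro i hi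
      rw [sum_shift (mem_range.1 hi) V hV1]
      exact sum_congr rfl fun n hn => hV2 n hn
    rw [sum_congr rfl this, sum_const, card_range, nsmul_eq_mul]
  have hU2 : ∑ x ∈ XX N H W c D, (∑ i ∈ range D, V (x - i * W)) ^ 2 =
      D * C 0 + 2 * ∑ k ∈ Ico 1 D, ((D : ℝ) - k) * C k := by
    rw [← sum_diff C D]
    have e1 : ∀ x ∈ XX N H W c D, (∑ i ∈ range D, V (x - i * W)) ^ 2 =
        ∑ i ∈ range D, ∑ j ∈ range D, V (x - i * W) * V (x - j * W) := by
      intro x _
      rw [sq, sum_mul_sum]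
    rw [sum_congr rfl e1, sum_comm]
    refine sum_congr rfl fun i hi => ?_
    rw [sum_comm]
    refine sum_congr rfl fun j hj => ?_
    rw [mem_range] at hi hj
    split_ifs with h
    · exact hpair i j h hj
    · rw [← hpair j i (not_le.1 h).le hi]
      exact sum_congr rfl fun x _ => mul_comm _ _
  have hCS : (D * ∑ n ∈ S, u n) ^ 2 ≤ ((XX N H W c D).card : ℝ) *
      (D * C 0 + 2 * ∑ k ∈ Ico 1 D, ((D : ℝ) - k) * C k) := by
    rw [← hU1, ← hU2]
    exact sq_sum_le_card_mul_sum_sq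
  have hQ : 0 ≤ D * C 0 + 2 * ∑ k ∈ Ico 1 D, ((D : ℝ) - k) * C k := by
    rw [← hU2]
    exact sum_nonneg fun _ _ => sq_nonneg _
  have hcard : ((XX N H W c D).card : ℝ) ≤ (H : ℝ) / W + 1 + D := by
    have := card_XX N H W c D hW hD hHN
    linarith
  have hfin : D * C 0 + 2 * ∑ k ∈ Ico 1 D, ((D : ℝ) - k) * C k =
      D * ∑ n ∈ S, u n ^ 2 + 2 * ∑ j ∈ Ico 1 D, ((D : ℝ) - j) *
        ∑ n ∈ S.filter (fun n => n + j * W ≤ N), u n * u (n + j * W) := by
    rw [hC0]
    congr 2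
    exact sum_congr rfl fun k _ => by rw [hCk k]
  rw [← hfin]
  have h6 : (D : ℝ) ^ 2 * (∑ n ∈ S, u n) ^ 2 ≤ ((H : ℝ) / W + 1 + D) *
      (D * C 0 + 2 * ∑ k ∈ Ico 1 D, ((D : ℝ) - k) * C k) := by
    rw [← mul_pow]
    exact hCS.trans (mul_le_mul_of_nonneg_right hcard hQ)
  rw [div_mul_eq_mul_div, le_div_iff₀ (by positivity)]
  linarith

end Pool.Agent.H61.MCL
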